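import Pool.Agent.H43.SHDefs

set_option autoImplicit false

namespace Pool.Agent.Results.MP_e7ecf3_lc.LocFin

open Pool.Agent.H43.SH Filter Topology Function TopologicalSpace

lemma sh {Γ : Type} [Group Γ] [Countable Γ] (F : ℕ → Subgroup Γ) (hF : Monotone F)
    [∀ n, Finite (F n)] (hU : ∀ γ, ∃ n, γ ∈ F n) : SH Γ := by
  intro X _ _ _ _ _ _ hf
  classical
  have fr : ∀ (a b : Γ) (x : X), a • x = b • x → a = b := fun a b x h =>
    (inv_mul_eq_one.1 (hf _ x (by rw [mul_smul, ← h, inv_smul_smul]))).symm ▸ rfl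
  obtain ⟨j, j1, j2⟩ : ∃ j : X → ℕ → Bool, Continuous j ∧ Injective j := by
    haveI : Countable (Clopens X) := Clopens.countable_iff_secondCountable.2 inferInstance
    obtain ⟨U, hU⟩ := exists_surjective_nat (Clopens X)
    refine ⟨fun x n => decide (x ∈ U n), continuous_pi fun n => ?_, fun x y h => ?_⟩
    · exact ((continuous_boolIndicator_iff_isClopen _).2 (U n).isClopen).congr fun x => by
        simp [Set.boolIndicator]
    · by_contra h1
      obtain ⟨V, h2, h3, h4⟩ := exists_isClopen_of_totally_separated h1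
      obtain ⟨n, hn⟩ := hU ⟨V, h2⟩
      have := congrFun h n
      simp only [hn, decide_eq_decide] at this
      exact h4 (this.1 h3)
  choose c hc using fun n x => Finite.exists_min fun γ : F n => toLex (j ((γ : Γ) • x))
  have c1 : ∀ n, IsLocallyConstant (c n) := fun n => (IsLocallyConstant.iff_isOpen_fiber).2 fun γ => by
    have : c n ⁻¹' {γ} = ⋂ δ ∈ {δ | δ ≠ γ}, ⋃ i, (⋂ k ∈ Set.Iio i,
        {x | j ((γ : Γ) • x) k = j ((δ : Γ) • x) k}) ∩ {x | j ((γ : Γ) • x) i < j ((δ : Γ) • x) i} := by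
      ext x
      simp only [Set.mem_iInter, Set.mem_iUnion, Set.mem_inter_iff]
      refine ⟨fun h δ h1 => ?_, fun h => by_contra fun h1 => (hc n x γ).not_gt (h _ h1)⟩
      exact (h ▸ hc n x δ).lt_of_ne fun h2 => h1 (Subtype.ext (fr _ _ x (j2 h2)).symm)
    have h0 : ∀ (γ δ : Γ) k (S : Set (Bool × Bool)), IsOpen {x | (j (γ • x) k, j (δ • x) k) ∈ S} :=
      fun γ δ k S => (isOpen_discrete S).preimage (by fun_prop)
    rw [this]
    exact (Set.toFinite _).isOpen_biInter fun δ _ => isOpen_iUnion fun i =>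
      ((Set.finite_Iio i).isOpen_biInter fun k _ => h0 _ _ k {p | p.1 = p.2}).inter
        (h0 _ _ i {p | p.1 < p.2})
  have c2 : ∀ n x, ∀ γ ∈ F n, (c n (γ • x) : Γ) * γ = c n x := fun n x γ h => by
    refine fr _ _ x (j2 (toLex.injective (le_antisymm ?_ (hc n x (c n _ * ⟨γ, h⟩)))))
    simpa [mul_smul] using hc n (γ • x) (c n x * ⟨γ, h⟩⁻¹)
  let bit : ℕ × Γ × Option ℕ → X → Bool := fun p x => p.2.2.elim
    (decide ((c (p.1 + 1) x : Γ) = p.2.1 * c p.1 x))
    fun k => p.2.1 ∈ F p.1 && k < p.1 && j ((p.2.1 * c p.1 x) • x) k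
  obtain ⟨e, he⟩ := exists_injective_nat (ℕ × Γ × Option ℕ)
  refine ⟨fun x => extend e (bit · x) fun _ => false, continuous_pi fun m => ?_, fun x y => ?_⟩
  · by_cases h : ∃ p, e p = m
    · obtain ⟨⟨n, γ, _ | k⟩, rfl⟩ := h <;> simp only [he.extend_apply]
      · exact (((c1 (n + 1)).prodMk (c1 n)).comp fun p => decide ((p.1 : Γ) = γ * p.2)).continuous
      · refine continuous_iff_continuousAt.2 fun x => ContinuousAt.congr
          (f := fun y => γ ∈ F n && k < n && j ((γ * c n x) • y) k) ?_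
          (((c1 n).eventually_eq x).mono fun y hy => by simp [bit, hy])
        exact ((continuous_of_discreteTopology (f := fun b => γ ∈ F n && k < n && b)).comp
          (by fun_prop)).continuousAt
    · simpa only [extend_apply' _ _ _ h] using continuous_const
  have h0 : (∀ᶠ m in cofinite, extend e (bit · x) (fun _ => false) m =
      extend e (bit · y) (fun _ => false) m) ↔ {p | bit p x ≠ bit p y}.Finite := by
    rw [eventually_cofinite, ← Set.finite_image_iff he.injOn]
    congr! 1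
    ext m
    by_cases h : ∃ p, e p = m
    · obtain ⟨p, rfl⟩ := h
      simp [he.extend_apply, he.eq_iff]
    · simp only [Set.mem_ofPred_eq, extend_apply' _ _ _ h]
      simpa using fun a b c _ h' => h ⟨_, h'⟩
  rw [h0]
  constructor
  · rintro ⟨γ, rfl⟩
    obtain ⟨N, hN⟩ := hU γ
    refine ((Set.finite_Iio N).prod ((Set.toFinite (F N : Set Γ)).prod
      (((Set.finite_Iio N).image some).insert none))).subset ?_
    rintro ⟨n, δ, o⟩ h
    have h1 : n < N := by
      by_contra! h1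
      refine h ?_
      have h2 := c2 n x γ (hF h1 hN)
      have h3 := c2 (n + 1) x γ (hF (by omega) hN)
      cases o <;> simp [bit, ← h2, ← h3, ← mul_assoc, mul_smul]
    have h2 : ∀ z, bit (n, δ, o) z = true → δ ∈ F N ∧ o ∈ insert none (some '' Set.Iio N) := fun z h => by
      cases o
      · simp only [bit, Option.elim, decide_eq_true_eq] at h
        exact ⟨eq_mul_inv_of_mul_eq h.symm ▸ mul_mem (hF h1 (c _ _).2) (inv_mem (hF h1.le (c _ _).2)),
          Or.inl rfl⟩
      · simp only [bit, Option.elim, Bool.and_eq_true, decide_eq_true_eq] at h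
        exact ⟨hF h1.le h.1.1, Or.inr ⟨_, h.1.2.trans h1, rfl⟩⟩
    refine ⟨h1, ?_⟩
    by_cases h3 : bit (n, δ, o) x = true
    · exact h2 _ h3
    · exact h2 (γ • x) (by_contra fun h4 => h ((Bool.eq_false_iff.2 h3).trans (Bool.eq_false_iff.2 h4).symm))
  · intro h
    obtain ⟨N, hN⟩ := (h.image Prod.fst).bddAbove
    have h1 : ∀ p : ℕ × Γ × Option ℕ, N < p.1 → bit p x = bit p y := fun p hp =>
      by_contra fun h2 => hp.not_ge (hN ⟨p, h2, rfl⟩)
    have h2 : ∀ n, N + 1 ≤ n → (c (N + 1) x : Γ) * (c n x : Γ)⁻¹ = c (N + 1) y * (c n y : Γ)⁻¹ :=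
      fun n hn => by
        induction n, hn using Nat.le_induction with
        | base => simp
        | succ n hn ih =>
          have h3 := h1 (n, c (n + 1) x * (c n x : Γ)⁻¹, none) hn
          simp only [bit, Option.elim, inv_mul_cancel_right, decide_true, true_eq_decide_iff] at h3
          rw [h3, mul_inv_rev, ← mul_assoc, ← ih]
          group
    refine ⟨(c (N + 1) y : Γ)⁻¹ * c (N + 1) x, ?_⟩
    rw [mul_smul, inv_smul_eq_iff]
    refine j2 (funext fun k => ?_)
    have h3 := h1 (N + 1 + k, c (N + 1) x * (c (N + 1 + k) x : Γ)⁻¹, some k) (by simp; omega)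
    have h4 : (c (N + 1) x * (c (N + 1 + k) x : Γ)⁻¹) ∈ F (N + 1 + k) :=
      mul_mem (hF (by omega) (c _ _).2) (inv_mem (c _ _).2)
    simp only [bit, Option.elim, h4, inv_mul_cancel_right, show k < N + 1 + k by omega, decide_true,
      Bool.true_and] at h3
    rw [h3, h2 _ (by omega), inv_mul_cancel_right]

abbrev G := Multiplicative (ℕ →₀ ZMod 2)

def X := (ℕ → ZMod 2) × (G → ZMod 3)

noncomputable instance : MulAction G X where
  smul γ x := (γ.toAdd + x.1, fun a => x.2 (a * γ))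
  one_smul x := by change (_, _) = x; simp
  mul_smul a b x := by
    change (_, _) = (_ + (_ + _), fun _ => x.2 _); simp [add_assoc, mul_assoc]

def F (n : ℕ) : Subgroup G where
  carrier := {γ | ∀ m, n ≤ m → γ.toAdd m = 0}
  mul_mem' ha hb m h := by simp [ha m h, hb m h]
  one_mem' := by simp
  inv_mem' ha m h := by simp [ha m h]

instance (n : ℕ) : Finite (F n) :=
  Finite.of_injective (fun (γ : F n) (i : Fin n) => γ.1.toAdd i) fun a b h => by
    ext m
    by_cases hm : m < n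
    · exact congrFun h ⟨m, hm⟩
    · exact (a.2 m (not_lt.1 hm)).trans (b.2 m (not_lt.1 hm)).symm

lemma F_all (γ : G) : ∃ n, γ ∈ F n :=
  ⟨γ.toAdd.support.sup id + 1, fun m h => by_contra fun h1 =>
    (Finset.le_sup (f := id) (Finsupp.mem_support_iff.2 h1)).not_gt h⟩

open Classical in
noncomputable def lev (γ : G) : ℕ := Nat.find (F_all γ)

lemma lev_mul (a : G) : ∀ᶠ γ in cofinite, lev (a * γ) = lev γ := by
  obtain ⟨n, hn⟩ := F_all a
  refine (Set.finite_coe_iff.1 (inferInstance : Finite (F n))).subset fun γ h => by_contra fun h1 => h ?_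
  classical
  refine Nat.find_congr' fun {k} => ?_
  by_cases hk : n ≤ k
  · exact mul_mem_cancel_left fun m h => hn m (hk.trans h)
  · exact iff_of_false (fun h => h1 ((mul_mem_cancel_left hn).1 fun m h' => h m (by omega)))
      fun h => h1 fun m h' => h m (by omega)

/-- A countable group that is strongly hyperfinite but has a free action on a compact
zero-dimensional Polish space that is not topologically orbit equivalent to an integer action. -/
theorem result : ∃ (Γ : Type) (_ : Group Γ), Countable Γ ∧ SH Γ ∧ ¬ OEZ Γ := by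
  haveI : Countable G := inferInstanceAs (Countable (ℕ →₀ ZMod 2))
  refine ⟨G, inferInstance, inferInstance,
    sh F (fun a b h γ h1 m h2 => h1 m (h.trans h2)) F_all, fun h => ?_⟩
  letI : TopologicalSpace X := inferInstanceAs (TopologicalSpace (_ × _))
  haveI : CompactSpace X := inferInstanceAs (CompactSpace (_ × _))
  haveI : PolishSpace ((ℕ → ZMod 2) × (G → ZMod 3)) := { }
  haveI : PolishSpace X := ‹_›
  haveI : TotallyDisconnectedSpace X := inferInstanceAs (TotallyDisconnectedSpace (_ × _))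
  haveI : ContinuousConstSMul G X := ⟨fun γ => show Continuous
    fun x : (ℕ → ZMod 2) × (G → ZMod 3) => (γ.toAdd + x.1, fun a => x.2 (a * γ)) by fun_prop⟩
  obtain ⟨Y, _, -, -, -, _, _, φ, hφ⟩ := h X fun γ x h => by
    ext m; simpa using congrFun (add_eq_right.1 (congrArg Prod.fst h)) m
  let x0 : X := (0, fun a => lev a)
  have hc : ∀ a, Continuous fun z : X => z.2 a := fun a => (continuous_apply a).comp continuous_snd
  have h1 : {γ : G | (φ.symm ((1 : ℤ) +ᵥ φ (γ • x0))).2 1 ≠ (γ • x0).2 1}.Finite := by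
    by_contra h1
    haveI := frequently_iff_neBot.1 (frequently_cofinite_iff_infinite.2 h1)
    obtain ⟨z, -, hz⟩ := isCompact_univ.exists_mapClusterPt (u := fun γ : G => γ • x0)
      (f := cofinite ⊓ 𝓟 {γ : G | (φ.symm ((1 : ℤ) +ᵥ φ (γ • x0))).2 1 ≠ (γ • x0).2 1}) (by simp)
    obtain ⟨y, hy⟩ := hφ z
    obtain ⟨n, hn⟩ : φ z ∈ AddAction.orbit ℤ y := hy ▸ ⟨z, MulAction.mem_orbit_self z, rfl⟩
    obtain ⟨_, ⟨δ, rfl⟩, h2⟩ : (1 : ℤ) +ᵥ φ z ∈ φ '' MulAction.orbit G z :=
      hy ▸ ⟨1 + n, by simp only [← hn, add_vadd]⟩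
    have h3 : z ∈ {z : X | z.2 (1 * δ) = z.2 1} := (isClosed_eq (hc _) (hc _)).mem_of_mapClusterPt hz
      (((lev_mul δ).filter_mono inf_le_left).mono fun γ h => show ((lev _ : ℕ) : ZMod 3) = lev _ by
        simp [h])
    have h4 : z ∈ {z : X | ((φ.symm ((1 : ℤ) +ᵥ φ z)).2 1, z.2 1) ∈ {p | p.1 ≠ p.2}} :=
      ((isClosed_discrete _).preimage (((hc 1).comp (by fun_prop)).prodMk (hc 1))).mem_of_mapClusterPt hz
        (mem_inf_of_right (mem_principal_self _))
    exact h4 (by rw [← h2, φ.symm_apply_apply]; exact h3)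
  obtain ⟨y, hy⟩ := hφ x0
  have h2 : ∀ n : ℤ, ∃ γ : G, φ (γ • x0) = n +ᵥ y := fun n => by
    obtain ⟨_, ⟨γ, rfl⟩, h⟩ : n +ᵥ y ∈ φ '' MulAction.orbit G x0 := hy ▸ ⟨n, rfl⟩
    exact ⟨γ, h⟩
  choose p hp using h2
  have fr : ∀ a b : G, a • x0 = b • x0 → a = b := fun a b h => by
    ext m; simpa [x0] using congrFun (add_right_cancel (congrArg Prod.fst h)) m
  have h3 : Surjective p := fun γ => by
    obtain ⟨n, hn⟩ : φ (γ • x0) ∈ AddAction.orbit ℤ y := hy ▸ ⟨_, ⟨γ, rfl⟩, rfl⟩
    exact ⟨n, fr _ _ (φ.injective ((hp n).trans hn))⟩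
  have h4 : ∀ k : ℕ, lev (.ofAdd (Finsupp.single k 1)) = k + 1 := fun k => by
    classical
    refine (Nat.find_eq_iff _).2 ⟨fun m h => Finsupp.single_eq_of_ne (by omega), fun n h h1 => ?_⟩
    simpa using h1 k (by omega)
  have h5 : ∀ (s : Set ℤ) (i : ℕ), s.Finite → ∃ n ∉ s, ((lev (p n) : ℕ) : ZMod 3) = i := fun s i hs => by
    obtain ⟨M, hM⟩ := (hs.image (lev ∘ p)).bddAbove
    obtain ⟨n, hn⟩ := h3 (.ofAdd (Finsupp.single (3 * M + 2 + i) 1))
    refine ⟨n, fun h => ?_, ?_⟩
    · have := hM ⟨n, h, rfl⟩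
      rw [comp_apply, hn, h4] at this
      omega
    · have h0 : (3 : ZMod 3) = 0 := rfl
      rw [hn, h4]; push_cast; linear_combination (M + 1 : ZMod 3) * h0
  have h6 : Injective p := fun a b h => by
    by_contra h6
    have h7 : Periodic p (a - b) := fun n => fr _ _ (φ.injective (by
      rw [hp, hp, ← add_sub_assoc, add_sub_right_comm, add_vadd, ← hp a, h, hp, ← add_vadd, sub_add_cancel]))
    have : (Set.univ : Set G).Finite := ((Set.finite_Ico 0 |a - b|).image p).subset fun γ _ => by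
      obtain ⟨n, rfl⟩ := h3 γ
      exact ⟨n % (a - b), ⟨Int.emod_nonneg _ (sub_ne_zero.2 h6), Int.emod_lt_abs _ (sub_ne_zero.2 h6)⟩,
        by rw [Int.emod_def, mul_comm]; exact h7.sub_int_mul_eq _⟩
    exact Set.infinite_univ (α := ℕ →₀ ZMod 2) this
  obtain ⟨N, hN⟩ := ((h1.preimage h6.injOn).image Int.natAbs).bddAbove
  have h7 : ∀ n : ℤ, N < n.natAbs → ((lev (p (n + 1)) : ℕ) : ZMod 3) = lev (p n) := fun n h => by
    by_contra h8
    refine h.not_ge (hN ⟨n, ?_, rfl⟩)
    rw [Set.mem_preimage, Set.mem_ofPred_eq, hp, ← add_vadd, add_comm, ← hp, φ.symm_apply_apply]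
    change ((lev _ : ℕ) : ZMod 3) ≠ lev _
    simpa using h8
  obtain ⟨i, h8, h9⟩ := (by decide : ∀ a b : ZMod 3, ∃ i : Fin 3, ((i : ℕ) : ZMod 3) ≠ a ∧
    ((i : ℕ) : ZMod 3) ≠ b) (lev (p (N + 1))) (lev (p (-N)))
  obtain ⟨n, a1, a2⟩ := h5 (Set.Ioo (-N) (N + 1)) i (Set.finite_Ioo _ _)
  rw [← a2] at h8 h9
  by_cases a3 : (N + 1 : ℤ) ≤ n
  · refine h8 (Int.leInduction (motive := fun n _ => ((lev (p n) : ℕ) : ZMod 3) = _) rfl
      (fun n h ih => (h7 n (by omega)).trans ih) n a3)
  · refine h9 (Int.leInductionDown (motive := fun n _ => ((lev (p n) : ℕ) : ZMod 3) = _) rfl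
      (fun n h ih => (h7 (n - 1) (by omega)).symm.trans (by simpa using ih)) n
      (by simp at a1; omega))

end Pool.Agent.Results.MP_e7ecf3_lc.LocFin
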